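import Pool.Agent.U307.RAD.Stm3

set_option autoImplicit false

/-!
Project RAD, package NRM: the norm in `L²` of the exponential sums `gg n l`.
-/

namespace Pool.Agent.U739.RAD.NRM

open Pool.Agent.U307.RAD MeasureTheory Set

lemma int_exp {c : ℝ} (hc : 0 < c) : ∫ y in Ioi (0 : ℝ), Real.exp (-(c * y)) = 1 / c := by
  have h := integral_comp_mul_left_Ioi (fun x => Real.exp (-x)) 0 hc
  rw [mul_zero, integral_exp_neg_Ioi_zero, smul_eq_mul, mul_one] at h
  rw [h, one_div]

lemma intble_exp {c : ℝ} (hc : 0 < c) :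
    IntegrableOn (fun y => Real.exp (-(c * y))) (Ioi (0 : ℝ)) := by
  have := exp_neg_integrableOn_Ioi 0 hc
  simpa [neg_mul] using this

lemma prodden (m n : ℕ) : (∏ i ∈ Finset.range (n + 1), (((m + 1 : ℕ) : ℝ) + i)) * (m.factorial : ℝ) =
    ((n + (m + 1)).factorial : ℝ) := by
  induction n with
  | zero =>
    rw [zero_add, Finset.prod_range_one, zero_add, Nat.factorial_succ]
    push_cast
    ring
  | succ n ih =>
    rw [Finset.prod_range_succ, show n + 1 + (m + 1) = (n + (m + 1)) + 1 by ring,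
      Nat.factorial_succ]
    push_cast at ih ⊢
    rw [← ih]
    ring

lemma prodnum (n : ℕ) : ∏ i ∈ Finset.range n, ((0 : ℝ) - 1 - i) = (-1) ^ n * (n.factorial : ℝ) := by
  induction n with
  | zero => simp
  | succ n ih =>
    rw [Finset.prod_range_succ, ih, Nat.factorial_succ, pow_succ]
    push_cast
    ring

lemma tr_real (hTR : S_TR) (n l j : ℕ) (hl : 1 ≤ l) :
    ∑ i ∈ Finset.range (n + 1), aa n l i / ((l : ℝ) + j + i) =
      (∏ i ∈ Finset.range n, ((j : ℝ) - 1 - i)) /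
        ∏ i ∈ Finset.range (n + 1), ((l : ℝ) + j + i) := by
  have h := hTR n l (((l : ℝ) / 2 + j : ℝ) : ℂ) (by
    intro i _ h
    have h1 : (((l : ℝ) / 2 + j + l / 2 + i : ℝ) : ℂ) = 0 := by
      rw [← h]
      push_cast
      ring
    have h2 : (l : ℝ) / 2 + j + l / 2 + i = 0 := by exact_mod_cast h1
    have h3 : (1 : ℝ) ≤ l := by exact_mod_cast hl
    have h4 : (0 : ℝ) ≤ j := Nat.cast_nonneg j
    have h5 : (0 : ℝ) ≤ i := Nat.cast_nonneg i
    linarith)
  have e1 : ∀ i : ℕ, (((l : ℝ) / 2 + j : ℝ) : ℂ) + (l : ℂ) / 2 + i = (((l : ℝ) + j + i : ℝ) : ℂ) := by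
    intro i
    push_cast
    ring
  have e2 : ∀ i : ℕ, (((l : ℝ) / 2 + j : ℝ) : ℂ) - (l : ℂ) / 2 - 1 - i = (((j : ℝ) - 1 - i : ℝ) : ℂ) := by
    intro i
    push_cast
    ring
  simp only [e1, e2] at h
  exact_mod_cast h

theorem t_NRM : S_TR → S_IGR → S_NRM := by
  intro hTR _ n l hl
  have hl' : (1 : ℝ) ≤ l := by exact_mod_cast hl
  have hpos : ∀ i j : ℕ, 0 < (l : ℝ) + j + i := fun i j => by positivity
  have e : ∀ y : ℝ, gg n l y ^ 2 = ∑ j ∈ Finset.range (n + 1), ∑ i ∈ Finset.range (n + 1),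
      (aa n l j * aa n l i) * Real.exp (-(((l : ℝ) + j + i) * y)) := by
    intro y
    unfold gg
    rw [sq, Finset.sum_mul_sum]
    refine Finset.sum_congr rfl fun j _ => Finset.sum_congr rfl fun i _ => ?_
    have : Real.exp (-(((l : ℝ) + j + i) * y)) =
        Real.exp (-(((l : ℝ) / 2 + j) * y)) * Real.exp (-(((l : ℝ) / 2 + i) * y)) := by
      rw [← Real.exp_add]
      congr 1
      ring
    rw [this]
    ring
  simp only [e]
  rw [integral_finsetSum _ fun j _ => integrable_finsetSum _ fun i _ =>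
    (intble_exp (hpos i j)).const_mul _]
  have e3 : ∀ j ∈ Finset.range (n + 1), ∫ y in Ioi (0 : ℝ), ∑ i ∈ Finset.range (n + 1),
      (aa n l j * aa n l i) * Real.exp (-(((l : ℝ) + j + i) * y)) =
      aa n l j * ((∏ i ∈ Finset.range n, ((j : ℝ) - 1 - i)) /
        ∏ i ∈ Finset.range (n + 1), ((l : ℝ) + j + i)) := by
    intro j _
    rw [integral_finsetSum _ fun i _ => (intble_exp (hpos i j)).const_mul _,
      ← tr_real hTR n l j hl, Finset.mul_sum]
    refine Finset.sum_congr rfl fun i _ => ?_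
    rw [integral_const_mul, int_exp (hpos i j)]
    ring
  rw [Finset.sum_congr rfl e3, Finset.sum_eq_single 0]
  · obtain ⟨m, rfl⟩ : ∃ m, l = m + 1 := ⟨l - 1, by omega⟩
    have h1 := prodden m n
    have h2 := prodnum n
    rw [Nat.cast_zero, h2]
    have h3 : ∀ i : ℕ, ((m + 1 : ℕ) : ℝ) + 0 + i = ((m + 1 : ℕ) : ℝ) + i := fun i => by ring
    simp only [h3]
    have hP : (∏ i ∈ Finset.range (n + 1), (((m + 1 : ℕ) : ℝ) + i)) ≠ 0 :=
      Finset.prod_ne_zero_iff.2 fun i _ => by positivity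
    set P := ∏ i ∈ Finset.range (n + 1), (((m + 1 : ℕ) : ℝ) + i)
    have h4 : aa n (m + 1) 0 = (-1) ^ n * (P * (m.factorial : ℝ)) /
        ((n.factorial : ℝ) * (((m : ℝ) + 1) * m.factorial)) := by
      unfold aa
      rw [h1, add_zero, add_zero, Nat.sub_zero, Nat.factorial_zero, Nat.factorial_succ m]
      push_cast
      ring
    rw [h4]
    have hn : (n.factorial : ℝ) ≠ 0 := by exact_mod_cast n.factorial_ne_zero
    have hm : (m.factorial : ℝ) ≠ 0 := by exact_mod_cast m.factorial_ne_zero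
    have hm1 : (m : ℝ) + 1 ≠ 0 := by positivity
    have hs : ((-1 : ℝ) ^ n) * (-1) ^ n = 1 := by rw [← mul_pow]; simp
    push_cast
    field_simp
    linear_combination hs
  · intro j hj hj0
    have hj1 : j - 1 ∈ Finset.range n := by
      rw [Finset.mem_range] at hj ⊢
      omega
    rw [Finset.prod_eq_zero hj1, zero_div, mul_zero]
    have : ((j - 1 : ℕ) : ℝ) = (j : ℝ) - 1 := by
      rw [Nat.cast_sub (by omega)]
      simp
    rw [this]
    ring
  · intro h
    simp at h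

end Pool.Agent.U739.RAD.NRM
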